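import Pool.Agent.Helper3_PQE.Stmts
import Pool.Agent.Helper13_PQX.Qfx

/-!
# Squad PQE, module QPL: the pattern for a lifting package, with exceptional values
-/

set_option autoImplicit false

universe u

open MvPolynomial PGH PGL

namespace Pool.Agent.PQE.H13

open BranchedTowers Pool.Agent.PQE

theorem qpl : QplStmt.{u} := by
  have hqfx : Pool.Agent.PQX.QfxStmt.{u} := Pool.Agent.PQX.H13.qfx
  intro k M Γ R S E E' _ _ _ _ _ _ _ _ _ _ _ _ _ _ _ _ _ _ _ _ _ n B _ hB _ _ _ _ _ _ _ _ _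
    φ pk y r A X h1 h2 h3 h4 h5 h6 P hP hX l a ha hord
  classical
  have hFF : FF k E' := FF.extension k E E'
  obtain ⟨Q, e, he, hL⟩ := exists_place_above k E E' P
  have hQ : ∀ f : E, Q.ord (algebraMap E E' f) = e * P.ord f := hL
  have hψ : ∀ l, pk.ψ (algebraMap R S (r l)) = algebraMap E E' (φ (r l)) := fun l => pk.ψ_R (r l)
  have hmem : ∀ l, algebraMap S M (algebraMap R S (r l)) ∈ B l := fun l => by
    rw [h6 l]; exact (y l).2
  have hY : ∀ (l) (hl : l ∈ pk.I), pk.y ⟨l, hl⟩ (y l) = algebraMap E E' (φ (r l)) := by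
    intro l hl
    rw [← hψ l, ← pk.y_eq ⟨l, hl⟩ (algebraMap R S (r l)) (hmem l)]
    congr 1
    exact Subtype.ext (h6 l).symm
  have hYc : ∀ (l) (hl : l ∈ pk.I) (c : k), pk.y ⟨l, hl⟩ (y l - algebraMap k (B l) c) =
      algebraMap E E' (φ (r l) - algebraMap k E c) := by
    intro l hl c
    rw [map_sub, map_sub, hY l hl, AlgHom.commutes, ← IsScalarTower.algebraMap_apply k E E']
  have haX : a ∉ X l := by
    intro h0
    apply hX l a h0
    have hne : φ (r l) - algebraMap k E a ≠ 0 := by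
      intro h7
      rw [h7, P.ord_zero] at hord
      exact zero_ne_one hord
    exact (P.ge_iff hne).2 (by omega)
  by_cases hl : l ∈ pk.I
  swap
  · exfalso
    obtain ⟨c, hc⟩ := pk.const l hl (algebraMap R S (r l)) (hmem l)
    rw [hψ l, IsScalarTower.algebraMap_apply k E E'] at hc
    have hc' := (algebraMap E E').injective hc
    rw [hc', ← map_sub, P.ord_const] at hord
    exact zero_ne_one hord
  obtain ⟨v, el, hv⟩ := exists_lies (pk.y ⟨l, hl⟩) Q
  have hel := hv.pos
  have he2 : 2 ≤ e := by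
    have h7 := hv (y l - algebraMap k (B l) a)
    rw [hYc l hl a, hQ, hord, mul_one] at h7
    have h8 := h5 l a haX ha v
    have h9 : (0 : ℤ) < e := by exact_mod_cast he
    have h10 : (0 : ℤ) < el := by exact_mod_cast hel
    have h11 : 0 < v.ord (y l - algebraMap k (B l) a) := by
      by_contra hcon
      push Not at hcon
      have := mul_nonpos_of_nonneg_of_nonpos h10.le hcon
      omega
    have h12 : 2 ≤ v.ord (y l - algebraMap k (B l) a) := by omega
    have h13 : (2 : ℤ) ≤ e := by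
      rw [h7]
      nlinarith
    exact_mod_cast h13
  obtain ⟨σ, ζ, -, hfix, -, hram⟩ := exists_inertia E Q
  have hσ : 2 ≤ orderOf σ := he2.trans (hram P e hL)
  have hγ : pk.g σ ≠ 1 := by
    intro h0
    have h7 := pk.order σ
    rw [h0, orderOf_one] at h7
    omega
  obtain ⟨m, hml, z, hz, hzne⟩ : ∃ m, m ≠ l ∧ ∃ z, z ∈ B m ∧ pk.g σ • z ≠ z := by
    by_contra hcon
    push Not at hcon
    exact hγ (h1 l (pk.g σ) fun m hm z hz => hcon m hm z hz)
  have hm : m ∈ pk.I := by
    by_contra hcon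
    apply hzne
    have h7 := pk.triv σ m hcon ⟨z, hz⟩
    exact congrArg Subtype.val h7
  obtain ⟨w, em, hw⟩ := exists_lies (pk.y ⟨m, hm⟩) Q
  have hem := hw.pos
  have hem' : (0 : ℤ) < em := by exact_mod_cast hem
  have hτ : ∀ f : B m, w.ord (actF (B m) (hB m) (pk.g σ) f) = w.ord f := by
    intro f
    have h7 := hw f
    have h8 := hw (actF (B m) (hB m) (pk.g σ) f)
    rw [← pk.equiv σ ⟨m, hm⟩ f] at h8
    have h9 := hfix (pk.y ⟨m, hm⟩ f)
    rw [toL_apply] at h9
    rw [h9, h7] at h8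
    exact (mul_left_cancel₀ (ne_of_gt hem') h8).symm
  have hge0 : w.Ge 0 (y m) := by
    rw [← hw.ge_zero_iff hem, hY m hm]
    have h7 := hL.ge (hP m)
    rw [mul_zero] at h7
    exact h7
  obtain ⟨c, hc⟩ := w.exists_res hge0
  have hyc : y m ≠ algebraMap k (B m) c := by
    intro h0
    have h7 := h3 m
    rw [h0] at h7
    exact h7 (isAlgebraic_algebraMap c)
  have h2ord : 2 ≤ w.ord (y m - algebraMap k (B m) c) := by
    refine hqfx w (actF (B m) (hB m) (pk.g σ)) hτ ⟨⟨z, hz⟩, ?_⟩ (y m) c ?_ hyc hc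
    · intro h0
      exact hzne (congrArg Subtype.val h0)
    · exact Subtype.ext (h2 m (pk.g σ))
  have hP1 : P.Ge 1 (φ (r m) - algebraMap k E c) := by
    have hne : φ (r m) - algebraMap k E c ≠ 0 := by
      intro h0
      have h7 := hYc m hm c
      rw [h0, map_zero] at h7
      exact hyc (sub_eq_zero.1 ((map_eq_zero (pk.y ⟨m, hm⟩)).1 h7))
    rw [P.ge_iff hne]
    have h7 := hw (y m - algebraMap k (B m) c)
    rw [hYc m hm c, hQ] at h7
    have h8 : (0 : ℤ) < e := by exact_mod_cast he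
    by_contra hcon
    have h9 : P.ord (φ (r m) - algebraMap k E c) ≤ 0 := by omega
    have h10 := mul_nonpos_of_nonneg_of_nonpos h8.le h9
    rw [h7] at h10
    have h11 : (0 : ℤ) < em * w.ord (y m - algebraMap k (B m) c) := mul_pos hem' (by omega)
    omega
  exact ⟨m, hml, c, h4 m c (fun h0 => hX m c h0 hP1) ⟨w, h2ord⟩, hP1⟩

end Pool.Agent.PQE.H13
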